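import Pool.Agent.Lib_helper12.HE.Defs

/-! Project HE (MP_b08f5f_an), block VI: the star integral. -/

set_option autoImplicit false

namespace Pool.Agent.Lib_helper12.HE

open MeasureTheory Filter Topology Set
open scoped ComplexConjugate ENNReal
open Pool.Agent.Lib_helper25.PV (Conf vel Motion centre inertia NC VFlow)

noncomputable section

/-- the inverse of `starMap π` -/
def VI_inv {N : ℕ} (π : Fin N → Fin N) : Conf N →ₗ[ℝ] Conf N where
  toFun z := fun j => if π j = j then z j else z j + z (π j)
  map_add' x y := by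
    funext j
    by_cases h : π j = j <;> simp [h]
    ring
  map_smul' r x := by
    funext j
    by_cases h : π j = j <;> simp [h]

theorem VI_comp {N : ℕ} {π : Fin N → Fin N} (hπ : ∀ j, π (π j) = π j) :
    starMap π ∘ₗ VI_inv π = LinearMap.id := by
  refine LinearMap.ext fun z => ?_
  funext j
  show (if π j = j then VI_inv π z j else VI_inv π z j - VI_inv π z (π j)) = z j
  have h1 : VI_inv π z (π j) = z (π j) := by
    show (if π (π j) = π j then z (π j) else z (π j) + z (π (π j))) = z (π j)
    rw [if_pos (hπ j)]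
  by_cases h : π j = j
  · rw [if_pos h]
    show (if π j = j then z j else z j + z (π j)) = z j
    rw [if_pos h]
  · rw [if_neg h, h1]
    show (if π j = j then z j else z j + z (π j)) - z (π j) = z j
    rw [if_neg h]
    ring

theorem VI_det {N : ℕ} {π : Fin N → Fin N} (hπ : ∀ j, π (π j) = π j) :
    LinearMap.det (starMap π) ≠ 0 := by
  have h := congrArg LinearMap.det (VI_comp hπ)
  rw [LinearMap.det_comp, LinearMap.det_id] at h
  exact left_ne_zero_of_mul_eq_one h

theorem VI_one {β : ℝ} (hβ : β < 2) (ρ : ℝ) :
    IntegrableOn (fun u : ℂ => ‖u‖ ^ (-β)) (Metric.ball 0 ρ) := by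
  rw [integrableOn_fun_norm_addHaar (E := ℂ) volume (f := fun y : ℝ => y ^ (-β)),
    Complex.finrank_real_complex]
  have h1 : IntegrableOn (fun y : ℝ => y ^ (1 - β)) (Ioo 0 ρ) := by
    rcases le_or_gt ρ 0 with h | h
    · rw [Ioo_eq_empty (not_lt.mpr h)]
      exact integrableOn_empty
    · have h2 : IntervalIntegrable (fun y : ℝ => y ^ (1 - β)) volume 0 ρ :=
        intervalIntegral.intervalIntegrable_rpow' (by linarith)
      exact ((intervalIntegrable_iff_integrableOn_Ioc_of_le h.le).mp h2).mono_set
        Ioo_subset_Ioc_self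
  refine h1.congr_fun (fun y hy => ?_) measurableSet_Ioo
  have hy0 : 0 < y := hy.1
  simp only [smul_eq_mul]
  rw [show (2 : ℕ) - 1 = 1 from rfl, pow_one, sub_eq_add_neg, Real.rpow_add hy0, Real.rpow_one]

theorem VI_integral {N : ℕ} {π : Fin N → Fin N} (hπ : ∀ j, π (π j) = π j) {β : ℝ}
    (hβ0 : 0 ≤ β) (hβ : β < 2) (R : ℝ) :
    ∫⁻ z in {z : Conf N | ∀ i, ‖z i‖ ≤ R},
      ∏ j, (if π j = j then 1 else ENNReal.ofReal (‖z j - z (π j)‖ ^ (-β))) < ⊤ := by
  classical
  set ρ : ℝ := 2 * |R| + 1 with hρ
  set G : Fin N → ℂ → ℝ := fun j =>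
    (Metric.ball (0 : ℂ) ρ).indicator (fun u => if π j = j then 1 else ‖u‖ ^ (-β)) with hG
  have hGi : ∀ j, Integrable (G j) volume := by
    intro j
    rw [hG, integrable_indicator_iff Metric.isOpen_ball.measurableSet]
    by_cases h : π j = j
    · simp only [h, if_true]
      exact integrableOn_const (measure_ball_lt_top).ne
    · simp only [h, if_false]
      exact VI_one hβ ρ
  have hG0 : ∀ j u, 0 ≤ G j u := by
    intro j u
    rw [hG]
    refine Set.indicator_nonneg (fun u _ => ?_) u
    by_cases h : π j = j
    · simp [h]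
    · simp only [h, if_false]
      positivity
  have hF : Integrable (fun u : Conf N => ∏ j, G j (u j)) volume := by
    rw [volume_pi]
    exact Integrable.fintype_prod (fun j => hGi j)
  have hmeas : Measurable (starMap π) :=
    (LinearMap.continuous_of_finiteDimensional (starMap π)).measurable
  have hmap : Integrable (fun z : Conf N => ∏ j, G j (starMap π z j)) volume := by
    have h1 : Integrable (fun u : Conf N => ∏ j, G j (u j)) (Measure.map (starMap π) volume) := by
      rw [Measure.map_linearMap_addHaar_eq_smul_addHaar volume (VI_det hπ)]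
      exact hF.smul_measure ENNReal.ofReal_ne_top
    exact h1.comp_measurable hmeas
  have hfin : ∫⁻ z : Conf N, ENNReal.ofReal (∏ j, G j (starMap π z j)) < ⊤ := by
    have h1 := hmap.2
    rw [hasFiniteIntegral_iff_ofReal] at h1
    · exact h1
    · exact ae_of_all _ fun z => Finset.prod_nonneg fun j _ => hG0 j _
  have hS : MeasurableSet {z : Conf N | ∀ i, ‖z i‖ ≤ R} := by
    have : {z : Conf N | ∀ i, ‖z i‖ ≤ R} = ⋂ i, {z : Conf N | ‖z i‖ ≤ R} := by
      ext z
      simp
    rw [this]
    exact MeasurableSet.iInter fun i =>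
      (isClosed_le (by fun_prop) continuous_const).measurableSet
  refine lt_of_le_of_lt ?_ hfin
  refine (setLIntegral_mono_ae' hS (ae_of_all _ fun z hz => ?_)).trans (setLIntegral_le_lintegral _ _)
  rw [ENNReal.ofReal_prod_of_nonneg fun j _ => hG0 j _]
  refine Finset.prod_le_prod' fun j _ => ?_
  have hz' : ∀ i, ‖z i‖ ≤ R := hz
  by_cases h : π j = j
  · have h1 : starMap π z j = z j := by
      show (if π j = j then z j else z j - z (π j)) = z j
      rw [if_pos h]
    have h2 : z j ∈ Metric.ball (0 : ℂ) ρ := by
      rw [mem_ball_zero_iff]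
      have := hz' j
      have := le_abs_self R
      have := abs_nonneg R
      linarith
    rw [if_pos h, h1]
    simp only [hG]
    rw [Set.indicator_of_mem h2, if_pos h, ENNReal.ofReal_one]
  · have h1 : starMap π z j = z j - z (π j) := by
      show (if π j = j then z j else z j - z (π j)) = _
      rw [if_neg h]
    have h2 : z j - z (π j) ∈ Metric.ball (0 : ℂ) ρ := by
      rw [mem_ball_zero_iff]
      have e1 := hz' j
      have e2 := hz' (π j)
      have e3 := norm_sub_le (z j) (z (π j))
      have e4 := le_abs_self R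
      linarith
    rw [if_neg h, h1]
    simp only [hG]
    rw [Set.indicator_of_mem h2, if_neg h]

end

end Pool.Agent.Lib_helper12.HE
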